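import Mathlib
import Pool.Agent.Q327.Packing

set_option autoImplicit false

open MeasureTheory Module

namespace Pool.Agent.Results.MP_c6e1d2_co.DetBelowPartial

/-- The data of the problem for one set `S` of columns: vectors `v j` in a Euclidean space with
`‖∑_{j ∈ S} A i j • v j‖² ≤ λ²` for every row `i`, `∑_j ‖v j‖² ≥ |S|/2`, `‖v j‖² ≤ 1` on `S` and
`v j = 0` off `S`. -/
def Feasible {m n : ℕ} (A : Matrix (Fin m) (Fin n) ℝ) (S : Finset (Fin n)) (lam : ℝ) : Prop :=
  ∃ (d : ℕ) (v : Fin n → EuclideanSpace ℝ (Fin d)),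
    (∀ i, ‖∑ j ∈ S, A i j • v j‖ ^ 2 ≤ lam ^ 2) ∧ (S.card : ℝ) / 2 ≤ ∑ j, ‖v j‖ ^ 2 ∧
    (∀ j ∈ S, ‖v j‖ ^ 2 ≤ 1) ∧ ∀ j ∉ S, v j = 0

/-- Hereditary partial vector discrepancy: the least `λ ≥ 0` feasible for every `S`. -/
noncomputable def herpvdisc {m n : ℕ} (A : Matrix (Fin m) (Fin n) ℝ) : ℝ :=
  sInf {lam : ℝ | 0 ≤ lam ∧ ∀ S : Finset (Fin n), Feasible A S lam}

/-- Determinant lower bound: the maximum of `|det A_{S,T}|^{1/k}` over `k ≥ 1` and `|S| = |T| = k`
(a `k`-element set of rows is listed by an order embedding of `Fin k`). -/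
noncomputable def detLB {m n : ℕ} (A : Matrix (Fin m) (Fin n) ℝ) : ℝ :=
  sSup {x : ℝ | ∃ k : ℕ, 1 ≤ k ∧ ∃ (f : Fin k ↪o Fin m) (g : Fin k ↪o Fin n),
    x = |(A.submatrix f g).det| ^ ((1 : ℝ) / k)}

section Core

variable {k : ℕ}

/-- squared norm of `B z` -/
def q (B : Matrix (Fin k) (Fin k) ℝ) (z : Fin k → ℝ) : ℝ := ∑ i, (∑ j, B i j * z j) ^ 2

def Hyp (B : Matrix (Fin k) (Fin k) ℝ) (lam : ℝ) : Prop :=
  ∀ S : Finset (Fin k), ∃ (d : ℕ) (w : Fin d → Fin k → ℝ),
    (∀ i, ∑ r, (∑ j ∈ S, B i j * w r j) ^ 2 ≤ lam ^ 2) ∧ (S.card : ℝ) / 2 ≤ ∑ r, ∑ j ∈ S, (w r j) ^ 2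

theorem extract (B : Matrix (Fin k) (Fin k) ℝ) (lam c : ℝ) (hc : 0 ≤ c) (H : Hyp B lam)
    (S : Finset (Fin k)) (h3 : c * (k * lam ^ 2) < S.card / 2) :
    ∃ z : Fin k → ℝ, (∀ j ∉ S, z j = 0) ∧ c * q B z < ∑ j, (z j) ^ 2 := by
  classical
  obtain ⟨d, w, h1, h2⟩ := H S
  by_contra hcon
  push Not at hcon
  have key : ∀ r, ∑ j ∈ S, (w r j) ^ 2 ≤ c * ∑ i, (∑ j ∈ S, B i j * w r j) ^ 2 := by
    intro r
    have h := hcon (fun j => if j ∈ S then w r j else 0) (fun j hj => by simp [hj])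
    have e1 : ∑ j, (if j ∈ S then w r j else 0) ^ 2 = ∑ j ∈ S, (w r j) ^ 2 := by
      rw [← Finset.sum_filter_add_sum_filter_not Finset.univ (fun j => j ∈ S)]
      rw [Finset.sum_eq_zero (s := Finset.univ.filter (fun j => ¬ j ∈ S)), add_zero]
      · rw [Finset.filter_mem_eq_inter, Finset.univ_inter]
        exact Finset.sum_congr rfl fun j hj => by simp [hj]
      · intro j hj
        rw [Finset.mem_filter] at hj
        simp [hj.2]
    have e2 : q B (fun j => if j ∈ S then w r j else 0) = ∑ i, (∑ j ∈ S, B i j * w r j) ^ 2 := by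
      unfold q
      refine Finset.sum_congr rfl fun i _ => ?_
      congr 1
      simp only [mul_ite, mul_zero]
      rw [← Finset.sum_filter, Finset.filter_mem_eq_inter, Finset.univ_inter]
    rw [e1, e2] at h
    exact h
  have h4 : ∑ r, ∑ j ∈ S, (w r j) ^ 2 ≤ c * ∑ i, ∑ r, (∑ j ∈ S, B i j * w r j) ^ 2 := by
    rw [Finset.sum_comm (s := Finset.univ) (t := Finset.univ)
      (f := fun i r => (∑ j ∈ S, B i j * w r j) ^ 2), Finset.mul_sum]
    exact Finset.sum_le_sum fun r _ => key r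
  have h5 : ∑ i : Fin k, ∑ r, (∑ j ∈ S, B i j * w r j) ^ 2 ≤ k * lam ^ 2 := by
    calc _ ≤ ∑ i : Fin k, lam ^ 2 := Finset.sum_le_sum fun i _ => h1 i
      _ = _ := by simp
  have h6 := mul_le_mul_of_nonneg_left h5 hc
  linarith

theorem q_nonneg (B : Matrix (Fin k) (Fin k) ℝ) (z : Fin k → ℝ) : 0 ≤ q B z :=
  Finset.sum_nonneg fun _ _ => sq_nonneg _

theorem phase (B : Matrix (Fin k) (Fin k) ℝ) (lam : ℝ) (hlam : 0 < lam) (H : Hyp B lam)
    (T0 : Finset (Fin k)) (hT0 : T0.Nonempty) (x : Fin k → ℝ) (hx : ∀ j, |x j| ≤ 1)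
    (hxT : ∀ j ∉ T0, |x j| = 1) :
    ∃ (y : Fin k → ℝ) (T1 : Finset (Fin k)), T1 ⊆ T0 ∧ 2 * T1.card ≤ T0.card ∧
      (∀ j, |y j| ≤ 1) ∧ (∀ j ∉ T1, |y j| = 1) ∧ (∀ j ∉ T0, y j = x j) ∧
      q B (y - x) ≤ 4 * (k * lam ^ 2) := by
  classical
  have hk : 0 < k := by
    obtain ⟨j, _⟩ := hT0
    exact lt_of_le_of_lt (Nat.zero_le _) j.2
  have hk' : (0:ℝ) < k := by exact_mod_cast hk
  have hs : (0:ℝ) < T0.card := by exact_mod_cast Finset.card_pos.mpr hT0
  obtain ⟨c, hcdef⟩ : ∃ c : ℝ, c = T0.card / (4 * (k * lam ^ 2)) := ⟨_, rfl⟩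
  have hD : 0 < k * lam ^ 2 := by positivity
  have hc : 0 < c := by rw [hcdef]; positivity
  have hcD : c * (k * lam ^ 2) = T0.card / 4 := by
    rw [hcdef]; field_simp
  let Q : Set (Fin k → ℝ) := Set.pi Set.univ (fun j => if j ∈ T0 then Set.Icc (-1:ℝ) 1 else {x j})
  have hQc : IsCompact Q := by
    apply isCompact_univ_pi
    intro j
    split_ifs
    · exact isCompact_Icc
    · exact isCompact_singleton
  have hQx : x ∈ Q := by
    intro j _
    simp only
    split_ifs with h
    · exact abs_le.mp (hx j)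
    · rfl
  let Φ : (Fin k → ℝ) → ℝ := fun y => ∑ j, (y j) ^ 2 - c * q B (y - x)
  have hΦc : ContinuousOn Φ Q := by
    apply Continuous.continuousOn
    simp only [Φ, q, Pi.sub_apply]
    fun_prop
  obtain ⟨y, hyQ, hymax⟩ := hQc.exists_isMaxOn ⟨x, hQx⟩ hΦc
  have hyT0 : ∀ j ∉ T0, y j = x j := by
    intro j hj
    have := hyQ j (Set.mem_univ j)
    simp only [hj, if_false] at this
    exact this
  have hy1 : ∀ j, |y j| ≤ 1 := by
    intro j
    by_cases hj : j ∈ T0
    · have := hyQ j (Set.mem_univ j)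
      simp only [hj, if_true] at this
      exact abs_le.mpr this
    · rw [hyT0 j hj]; exact hx j
  refine ⟨y, T0.filter (fun j => |y j| < 1), Finset.filter_subset _ _, ?_, hy1, ?_, hyT0, ?_⟩
  · by_contra hcon
    push Not at hcon
    obtain ⟨T1, hT1⟩ : ∃ T1, T1 = T0.filter (fun j => |y j| < 1) := ⟨_, rfl⟩
    rw [← hT1] at hcon
    have h3 : c * (k * lam ^ 2) < T1.card / 2 := by
      rw [hcD]
      have : (T0.card : ℝ) < 2 * T1.card := by exact_mod_cast hcon
      linarith
    obtain ⟨z, hz0, hz⟩ := extract B lam c hc.le H T1 h3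
    -- small ε
    have hev : ∀ᶠ ε in nhdsWithin (0:ℝ) (Set.Ioi 0), ∀ j ∈ T1, ε * |z j| < 1 - |y j| := by
      rw [Filter.eventually_all_finset]
      intro j hj
      have hj1 : |y j| < 1 := by
        rw [hT1, Finset.mem_filter] at hj
        exact hj.2
      have ht : Filter.Tendsto (fun ε : ℝ => ε * |z j|) (nhdsWithin (0:ℝ) (Set.Ioi 0)) (nhds (0 * |z j|)) :=
        (Filter.tendsto_id.mono_left nhdsWithin_le_nhds).mul_const _
      rw [zero_mul] at ht
      exact ht.eventually_lt_const (by linarith)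
    obtain ⟨ε, hε, hεpos⟩ := (hev.and self_mem_nhdsWithin).exists
    have hεpos' : 0 < ε := hεpos
    have hmem : ∀ σ : ℝ, |σ| ≤ 1 → (fun j => y j + σ * (ε * z j)) ∈ Q := by
      intro σ hσ j _
      simp only
      split_ifs with h
      · by_cases hj : j ∈ T1
        · have h1 := hε j hj
          have h2 : |σ * (ε * z j)| ≤ ε * |z j| := by
            rw [abs_mul, abs_mul, abs_of_pos hεpos']
            calc |σ| * (ε * |z j|) ≤ 1 * (ε * |z j|) :=
                  mul_le_mul_of_nonneg_right hσ (by positivity)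
              _ = _ := one_mul _
          have h3 : |y j + σ * (ε * z j)| ≤ 1 := (abs_add_le _ _).trans (by linarith)
          exact abs_le.mp h3
        · rw [hz0 j hj]
          simp only [mul_zero, add_zero]
          exact abs_le.mp (hy1 j)
      · have hj : j ∉ T1 := by
          rw [hT1, Finset.mem_filter]
          tauto
        rw [hz0 j hj]
        simp only [mul_zero, add_zero]
        exact hyT0 j h
    have m1 := hymax (hmem 1 (by norm_num))
    have m2 := hymax (hmem (-1) (by norm_num))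
    simp only [Set.mem_ofPred_eq] at m1 m2
    have hsum : Φ (fun j => y j + 1 * (ε * z j)) + Φ (fun j => y j + (-1) * (ε * z j)) =
        2 * Φ y + 2 * ε ^ 2 * (∑ j, (z j) ^ 2 - c * q B z) := by
      have e1 : ∑ j, (y j + 1 * (ε * z j)) ^ 2 + ∑ j, (y j + (-1) * (ε * z j)) ^ 2 =
          2 * ∑ j, (y j) ^ 2 + 2 * ε ^ 2 * ∑ j, (z j) ^ 2 := by
        rw [← Finset.sum_add_distrib, Finset.mul_sum, Finset.mul_sum, ← Finset.sum_add_distrib]
        exact Finset.sum_congr rfl fun j _ => by ring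
      have e2 : q B ((fun j => y j + 1 * (ε * z j)) - x) + q B ((fun j => y j + (-1) * (ε * z j)) - x) =
          2 * q B (y - x) + 2 * ε ^ 2 * q B z := by
        unfold q
        rw [← Finset.sum_add_distrib, Finset.mul_sum, Finset.mul_sum, ← Finset.sum_add_distrib]
        refine Finset.sum_congr rfl fun i _ => ?_
        have f1 : ∀ σ : ℝ, ∑ j, B i j * ((fun j => y j + σ * (ε * z j)) - x) j =
            ∑ j, B i j * (y - x) j + σ * ε * ∑ j, B i j * z j := by
          intro σ
          rw [Finset.mul_sum, ← Finset.sum_add_distrib]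
          refine Finset.sum_congr rfl fun j _ => ?_
          simp only [Pi.sub_apply]
          ring
        rw [f1, f1]
        ring
      simp only [Φ]
      linear_combination e1 - c * e2
    have : 0 < 2 * ε ^ 2 * (∑ j, (z j) ^ 2 - c * q B z) := by
      apply mul_pos (by positivity)
      linarith
    linarith
  · intro j hj
    by_cases h : j ∈ T0
    · have : ¬ (|y j| < 1) := by
        intro h2
        exact hj (Finset.mem_filter.mpr ⟨h, h2⟩)
      exact le_antisymm (hy1 j) (not_lt.mp this)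
    · rw [hyT0 j h]; exact hxT j h
  · have h1 := hymax hQx
    simp only [Set.mem_ofPred_eq, Φ, sub_self] at h1
    have h2 : q B (0 : Fin k → ℝ) = 0 := by simp [q]
    rw [h2, mul_zero, sub_zero] at h1
    have h3 : ∑ j, (y j) ^ 2 - ∑ j, (x j) ^ 2 ≤ T0.card := by
      rw [← Finset.sum_sub_distrib]
      calc ∑ j, ((y j) ^ 2 - (x j) ^ 2) ≤ ∑ j, (if j ∈ T0 then (1:ℝ) else 0) := by
            refine Finset.sum_le_sum fun j _ => ?_
            split_ifs with h
            · have := hy1 j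
              have h4 : (y j) ^ 2 ≤ 1 := by
                rw [← sq_abs]
                exact pow_le_one₀ (abs_nonneg _) this
              nlinarith [sq_nonneg (x j)]
            · rw [hyT0 j h]; simp
        _ = T0.card := by simp
    have h4 : c * q B (y - x) ≤ T0.card := by linarith
    have h5 : (T0.card : ℝ) = c * (4 * (k * lam ^ 2)) := by
      rw [← mul_assoc, mul_comm c 4, mul_assoc, hcD]; ring
    rw [h5] at h4
    exact le_of_mul_le_mul_left h4 hc

end Core

/-- A finite net of a ball in a subspace. -/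
theorem net {E' : Type} [NormedAddCommGroup E'] [NormedSpace ℝ E'] [FiniteDimensional ℝ E']
    (V : Submodule ℝ E') (t : ℕ) (hV : finrank ℝ V ≤ t) (r δ : ℝ) (hr : 0 < r) (hδ : 0 < δ)
    (hδ1 : δ ≤ 1) :
    ∃ s : Finset E', (s.card : ℝ) ≤ (3 / δ) ^ t ∧
      ∀ w ∈ V, ‖w‖ ≤ r → ∃ n ∈ s, ‖w - n‖ ≤ δ * r := by
  classical
  let P : Finset E' → Prop := fun s => (∀ c ∈ s, c ∈ V) ∧ (∀ c ∈ s, ‖c‖ ≤ r) ∧
    ∀ c ∈ s, ∀ d ∈ s, c ≠ d → δ * r ≤ ‖c - d‖
  have hP : ∀ s, P s → (s.card : ℝ) ≤ (3 / δ) ^ t := by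
    intro s hs
    have h := Pool.Agent.Q327.card_mul_pow_le V t hV s r (δ * r) (by positivity) (by nlinarith)
      hs.1 hs.2.1 hs.2.2
    have e : (3 * r) ^ t = (3 / δ) ^ t * (δ * r) ^ t := by
      rw [← mul_pow]
      congr 1
      field_simp
    rw [e] at h
    exact le_of_mul_le_mul_right h (by positivity)
  let N : Set ℕ := {n | ∃ s, P s ∧ s.card = n}
  have hne : N.Nonempty := ⟨0, ∅, ⟨by simp, by simp, by simp⟩, rfl⟩
  have hbd : BddAbove N := by
    refine ⟨⌊(3 / δ) ^ t⌋₊, ?_⟩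
    rintro n ⟨s, hs, rfl⟩
    exact Nat.le_floor (hP s hs)
  obtain ⟨s, hs, hcard⟩ := Nat.sSup_mem hne hbd
  refine ⟨s, hP s hs, fun w hw hwr => ?_⟩
  by_contra hcon
  push Not at hcon
  have hw' : w ∉ s := by
    intro h
    have := hcon w h
    rw [sub_self, norm_zero] at this
    have : 0 < δ * r := by positivity
    linarith
  have hP' : P (insert w s) := by
    refine ⟨?_, ?_, ?_⟩
    · intro c hc
      rcases Finset.mem_insert.mp hc with h | h
      · rw [h]; exact hw
      · exact hs.1 c h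
    · intro c hc
      rcases Finset.mem_insert.mp hc with h | h
      · rw [h]; exact hwr
      · exact hs.2.1 c h
    · intro c hc d hd hcd
      rcases Finset.mem_insert.mp hc with h | h <;> rcases Finset.mem_insert.mp hd with h' | h'
      · exact absurd (h.trans h'.symm) hcd
      · rw [h]; exact (hcon d h').le
      · rw [h', norm_sub_rev]; exact (hcon c h).le
      · exact hs.2.2 c h d h' hcd
  have : s.card + 1 ≤ sSup N := le_csSup hbd ⟨insert w s, hP', Finset.card_insert_of_notMem hw'⟩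
  omega

section Cover

variable {k : ℕ}

/-- the vector `B z` in Euclidean space -/
noncomputable def bb (B : Matrix (Fin k) (Fin k) ℝ) (z : Fin k → ℝ) : EuclideanSpace ℝ (Fin k) :=
  WithLp.toLp 2 (fun i => ∑ j, B i j * z j)

theorem bb_norm (B : Matrix (Fin k) (Fin k) ℝ) (z : Fin k → ℝ) : ‖bb B z‖ ^ 2 = q B z := by
  rw [EuclideanSpace.real_norm_sq_eq]
  rfl

theorem bb_sub (B : Matrix (Fin k) (Fin k) ℝ) (y x : Fin k → ℝ) : bb B (y - x) = bb B y - bb B x := by
  ext i
  simp only [bb, PiLp.sub_apply, Pi.sub_apply]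
  rw [← Finset.sum_sub_distrib]
  exact Finset.sum_congr rfl fun j _ => by ring

theorem bb_mem (B : Matrix (Fin k) (Fin k) ℝ) (T : Finset (Fin k)) (z : Fin k → ℝ)
    (hz : ∀ j ∉ T, z j = 0) :
    bb B z ∈ Submodule.span ℝ
      ((T.image (fun j => (WithLp.toLp 2 (fun i => B i j) : EuclideanSpace ℝ (Fin k))) :
        Finset (EuclideanSpace ℝ (Fin k))) : Set (EuclideanSpace ℝ (Fin k))) := by
  classical
  have h : bb B z = ∑ j ∈ T, z j • (WithLp.toLp 2 (fun i => B i j) : EuclideanSpace ℝ (Fin k)) := by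
    ext i
    simp only [bb]
    rw [WithLp.ofLp_sum, Finset.sum_apply]
    simp only [WithLp.ofLp_smul, Pi.smul_apply, smul_eq_mul]
    rw [← Finset.sum_subset (Finset.subset_univ T)]
    · exact Finset.sum_congr rfl fun j _ => mul_comm _ _
    · intro j _ hj
      rw [hz j hj, mul_zero]
  rw [h]
  apply Submodule.sum_mem
  intro j hj
  apply Submodule.smul_mem
  apply Submodule.subset_span
  exact Finset.mem_coe.mpr (Finset.mem_image_of_mem _ hj)

theorem cover (B : Matrix (Fin k) (Fin k) ℝ) (lam : ℝ) (hlam : 0 < lam) (hk : 0 < k)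
    (H : Hyp B lam) :
    ∀ t p : ℕ, ∀ T0 : Finset (Fin k), T0.card = t →
      ∃ Z : Finset (EuclideanSpace ℝ (Fin k)), (Z.card : ℝ) ≤ 2 ^ k * (12 * 2 ^ p) ^ (2 * t) ∧
        ∀ x : Fin k → ℝ, (∀ j, |x j| ≤ 1) → (∀ j ∉ T0, |x j| = 1) →
          ∃ z ∈ Z, ‖bb B x - z‖ ≤ 2 * (2 * (Real.sqrt k * lam)) * (1/2) ^ p := by
  classical
  intro t
  have hk' : (0:ℝ) < k := by exact_mod_cast hk
  obtain ⟨r, hrdef⟩ : ∃ r : ℝ, r = 2 * (Real.sqrt k * lam) := ⟨_, rfl⟩
  rw [← hrdef]
  have hr : 0 < r := by rw [hrdef]; positivity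
  have hr2 : r ^ 2 = 4 * (k * lam ^ 2) := by
    rw [hrdef, mul_pow, mul_pow, Real.sq_sqrt hk'.le]; ring
  induction t using Nat.strong_induction_on with
  | _ t ih =>
    intro p T0 hT0
    rcases Nat.eq_zero_or_pos t with ht | ht
    · -- base case
      have hTe : T0 = ∅ := Finset.card_eq_zero.mp (by omega)
      refine ⟨Finset.univ.image (fun s : Fin k → Bool => bb B (fun j => if s j then 1 else -1)), ?_, ?_⟩
      · rw [ht]
        simp only [mul_zero, pow_zero, mul_one]
        have : (Finset.univ.image (fun s : Fin k → Bool => bb B (fun j => if s j then (1:ℝ) else -1))).card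
            ≤ 2 ^ k := by
          refine Finset.card_image_le.trans ?_
          simp
        exact_mod_cast this
      · intro x _ hx1
        refine ⟨bb B x, ?_, ?_⟩
        · rw [Finset.mem_image]
          refine ⟨fun j => decide (x j = 1), Finset.mem_univ _, ?_⟩
          congr 1
          funext j
          have := hx1 j (by rw [hTe]; simp)
          rcases (abs_eq (by norm_num : (0:ℝ) ≤ 1)).mp this with h | h
          · simp [h]
          · have hne : ¬ x j = 1 := by rw [h]; norm_num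
            simp only [hne, decide_false]
            rw [h]; simp
        · rw [sub_self, norm_zero]; positivity
    · have hne : T0.Nonempty := Finset.card_pos.mp (by omega)
      -- covers for smaller sets
      have hZ : ∀ T1 : Finset (Fin k), ∃ Z : Finset (EuclideanSpace ℝ (Fin k)), 2 * T1.card ≤ t →
          ((Z.card : ℝ) ≤ 2 ^ k * (12 * 2 ^ (p+1)) ^ (2 * T1.card) ∧
          ∀ x : Fin k → ℝ, (∀ j, |x j| ≤ 1) → (∀ j ∉ T1, |x j| = 1) →
            ∃ z ∈ Z, ‖bb B x - z‖ ≤ 2 * r * (1/2) ^ (p+1)) := by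
        intro T1
        by_cases h : 2 * T1.card ≤ t
        · obtain ⟨Z, h1, h2⟩ := ih T1.card (by omega) (p+1) T1 rfl
          exact ⟨Z, fun _ => ⟨h1, h2⟩⟩
        · exact ⟨∅, fun h' => absurd h' h⟩
      choose Zf hZf using hZ
      let V := Submodule.span ℝ
        ((T0.image (fun j => (WithLp.toLp 2 (fun i => B i j) : EuclideanSpace ℝ (Fin k))) :
        Finset (EuclideanSpace ℝ (Fin k))) : Set (EuclideanSpace ℝ (Fin k)))
      have hVd : finrank ℝ V ≤ t := by
        refine (finrank_span_finset_le_card _).trans ?_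
        exact Finset.card_image_le.trans hT0.le
      obtain ⟨Nt, hN1, hN2⟩ := net V t hVd r ((1/2)^p) hr (by positivity)
        (pow_le_one₀ (by norm_num) (by norm_num))
      have hN1' : (Nt.card : ℝ) ≤ (3 * 2 ^ p) ^ t := by
        refine hN1.trans (le_of_eq ?_)
        congr 1
        rw [one_div, inv_pow, div_inv_eq_mul]
      let F := T0.powerset.filter (fun T1 => 2 * T1.card ≤ t)
      refine ⟨F.biUnion (fun T1 => (Zf T1 ×ˢ Nt).image (fun a => a.1 - a.2)), ?_, ?_⟩
      · have hb : ∀ T1 ∈ F, ((((Zf T1 ×ˢ Nt).image (fun a => a.1 - a.2)).card : ℕ) : ℝ) ≤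
            2 ^ k * (24 * 2 ^ p) ^ t * (3 * 2 ^ p) ^ t := by
          intro T1 hT1
          have hc : 2 * T1.card ≤ t := (Finset.mem_filter.mp hT1).2
          have h1 : ((((Zf T1 ×ˢ Nt).image (fun a => a.1 - a.2)).card : ℕ) : ℝ) ≤
              (Zf T1).card * Nt.card := by
            have := Finset.card_image_le (s := Zf T1 ×ˢ Nt) (f := fun a => a.1 - a.2)
            rw [Finset.card_product] at this
            exact_mod_cast this
          refine h1.trans ?_
          apply mul_le_mul _ hN1' (Nat.cast_nonneg _) (by positivity)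
          refine ((hZf T1 hc).1).trans ?_
          apply mul_le_mul_of_nonneg_left _ (by positivity)
          have e : (12 * 2 ^ (p+1) : ℝ) = 24 * 2 ^ p := by ring
          rw [e]
          apply pow_le_pow_right₀ _ hc
          have : (1:ℝ) ≤ 2 ^ p := one_le_pow₀ (by norm_num)
          linarith
        have hF : (F.card : ℝ) ≤ 2 ^ t := by
          have : F.card ≤ 2 ^ t := by
            refine (Finset.card_filter_le _ _).trans ?_
            rw [Finset.card_powerset, hT0]
          exact_mod_cast this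
        calc (((F.biUnion (fun T1 => (Zf T1 ×ˢ Nt).image (fun a => a.1 - a.2))).card : ℕ) : ℝ)
            ≤ ∑ T1 ∈ F, ((((Zf T1 ×ˢ Nt).image (fun a => a.1 - a.2)).card : ℕ) : ℝ) := by
              exact_mod_cast Finset.card_biUnion_le
          _ ≤ ∑ T1 ∈ F, (2 ^ k * (24 * 2 ^ p) ^ t * (3 * 2 ^ p) ^ t : ℝ) := Finset.sum_le_sum hb
          _ = F.card * (2 ^ k * (24 * 2 ^ p) ^ t * (3 * 2 ^ p) ^ t) := by
              rw [Finset.sum_const, nsmul_eq_mul]
          _ ≤ 2 ^ t * (2 ^ k * (24 * 2 ^ p) ^ t * (3 * 2 ^ p) ^ t) :=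
              mul_le_mul_of_nonneg_right hF (by positivity)
          _ = 2 ^ k * (12 * 2 ^ p) ^ (2 * t) := by
              rw [pow_mul (12 * 2 ^ p : ℝ) 2 t]
              rw [show (2:ℝ) ^ t * (2 ^ k * (24 * 2 ^ p) ^ t * (3 * 2 ^ p) ^ t) =
                2 ^ k * (2 ^ t * (24 * 2 ^ p) ^ t * (3 * 2 ^ p) ^ t) by ring, ← mul_pow, ← mul_pow]
              congr 2
              ring
      · intro x hx hx1
        obtain ⟨y, T1, hT1, hc, hy, hy1, hyx, hq⟩ := phase B lam hlam H T0 hne x hx hx1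
        rw [hT0] at hc
        obtain ⟨z, hz, hz2⟩ := (hZf T1 hc).2 y hy hy1
        have hmem : bb B (y - x) ∈ V := bb_mem B T0 _ (fun j hj => by
          rw [Pi.sub_apply, hyx j hj, sub_self])
        have hnorm : ‖bb B (y - x)‖ ≤ r := by
          apply le_of_sq_le_sq _ hr.le
          rw [bb_norm, hr2]
          exact hq
        obtain ⟨n, hn, hn2⟩ := hN2 _ hmem hnorm
        refine ⟨z - n, ?_, ?_⟩
        · rw [Finset.mem_biUnion]
          refine ⟨T1, Finset.mem_filter.mpr ⟨Finset.mem_powerset.mpr hT1, hc⟩, ?_⟩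
          rw [Finset.mem_image]
          exact ⟨(z, n), Finset.mem_product.mpr ⟨hz, hn⟩, rfl⟩
        · have e : bb B x - (z - n) = (bb B y - z) - (bb B (y - x) - n) := by
            rw [bb_sub]; abel
          rw [e]
          refine (norm_sub_le _ _).trans ?_
          refine (add_le_add hz2 hn2).trans (le_of_eq ?_)
          ring

end Cover

section Volume

variable {k : ℕ}

theorem ball_vol (lam : ℝ) (hlam : 0 < lam) (hk : 0 < k) (z : EuclideanSpace ℝ (Fin k)) :
    (volume (Metric.closedBall z (4 * (Real.sqrt k * lam)))).toReal ≤ (20 * lam) ^ k := by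
  have hk' : (0:ℝ) < k := by exact_mod_cast hk
  obtain ⟨b, hb⟩ : ∃ b : ℝ, b = 1 / (16 * lam ^ 2) := ⟨_, rfl⟩
  have hbpos : 0 < b := by rw [hb]; positivity
  have hI := GaussianFourier.integral_rexp_neg_mul_sq_norm (V := EuclideanSpace ℝ (Fin k)) hbpos
  have hpos : 0 < (Real.pi / b) ^ (Module.finrank ℝ (EuclideanSpace ℝ (Fin k)) / 2 : ℝ) :=
    Real.rpow_pos_of_pos (div_pos Real.pi_pos hbpos) _
  have hint : Integrable (fun v : EuclideanSpace ℝ (Fin k) => Real.exp (-b * ‖v‖ ^ 2)) := by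
    by_contra h
    rw [integral_undef h] at hI
    linarith
  have hvz : volume (Metric.closedBall z (4 * (Real.sqrt k * lam))) =
      volume (Metric.closedBall (0 : EuclideanSpace ℝ (Fin k)) (4 * (Real.sqrt k * lam))) := by
    rw [Measure.addHaar_closedBall_center]
  rw [hvz]
  have hfin : volume (Metric.closedBall (0 : EuclideanSpace ℝ (Fin k)) (4 * (Real.sqrt k * lam))) ≠ ⊤ :=
    measure_closedBall_lt_top.ne
  have h1 : (volume (Metric.closedBall (0 : EuclideanSpace ℝ (Fin k)) (4 * (Real.sqrt k * lam)))).toReal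
      * Real.exp (-(k:ℝ)) ≤ (Real.pi / b) ^ (Module.finrank ℝ (EuclideanSpace ℝ (Fin k)) / 2 : ℝ) := by
    rw [← hI]
    calc _ = ∫ v in Metric.closedBall (0 : EuclideanSpace ℝ (Fin k)) (4 * (Real.sqrt k * lam)),
          Real.exp (-(k:ℝ)) := by
          rw [setIntegral_const, smul_eq_mul]
          rfl
      _ ≤ ∫ v in Metric.closedBall (0 : EuclideanSpace ℝ (Fin k)) (4 * (Real.sqrt k * lam)),
          Real.exp (-b * ‖v‖ ^ 2) := by
          apply setIntegral_mono_on
          · exact integrableOn_const hfin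
          · exact hint.integrableOn
          · exact Metric.isClosed_closedBall.measurableSet
          · intro v hv
            apply Real.exp_le_exp.mpr
            rw [mem_closedBall_zero_iff] at hv
            have h2 : ‖v‖ ^ 2 ≤ 16 * (k * lam ^ 2) := by
              calc ‖v‖ ^ 2 ≤ (4 * (Real.sqrt k * lam)) ^ 2 := pow_le_pow_left₀ (norm_nonneg _) hv 2
                _ = _ := by rw [mul_pow, mul_pow, Real.sq_sqrt hk'.le]; ring
            have h3 : b * ‖v‖ ^ 2 ≤ b * (16 * (k * lam ^ 2)) := mul_le_mul_of_nonneg_left h2 hbpos.le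
            have h4 : b * (16 * (k * lam ^ 2)) = k := by
              rw [hb]; field_simp
            linarith
      _ ≤ ∫ v : EuclideanSpace ℝ (Fin k), Real.exp (-b * ‖v‖ ^ 2) :=
          setIntegral_le_integral hint (Filter.Eventually.of_forall fun v => (Real.exp_pos _).le)
  have h5 : (Real.pi / b) ^ (Module.finrank ℝ (EuclideanSpace ℝ (Fin k)) / 2 : ℝ) =
      (4 * Real.sqrt Real.pi * lam) ^ k := by
    rw [finrank_euclideanSpace_fin]
    have e1 : Real.pi / b = (4 * Real.sqrt Real.pi * lam) ^ 2 := by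
      rw [hb, mul_pow, mul_pow, Real.sq_sqrt Real.pi_pos.le]
      field_simp
      ring
    rw [e1, ← Real.rpow_natCast (4 * Real.sqrt Real.pi * lam) 2, ← Real.rpow_mul (by positivity),
      ← Real.rpow_natCast (4 * Real.sqrt Real.pi * lam) k]
    congr 1
    push_cast
    ring
  rw [h5] at h1
  have h6 : Real.exp (-(k:ℝ)) = (Real.exp (-1)) ^ k := by
    rw [← Real.exp_nat_mul]
    congr 1
    ring
  have h7 : (volume (Metric.closedBall (0 : EuclideanSpace ℝ (Fin k)) (4 * (Real.sqrt k * lam)))).toReal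
      ≤ (4 * Real.sqrt Real.pi * lam) ^ k * (Real.exp 1) ^ k := by
    have e : Real.exp (-(k:ℝ)) * (Real.exp 1) ^ k = 1 := by
      rw [h6, ← mul_pow, ← Real.exp_add]
      simp
    calc _ = (volume (Metric.closedBall (0 : EuclideanSpace ℝ (Fin k))
          (4 * (Real.sqrt k * lam)))).toReal * (Real.exp (-(k:ℝ)) * (Real.exp 1) ^ k) := by
          rw [e, mul_one]
      _ = ((volume (Metric.closedBall (0 : EuclideanSpace ℝ (Fin k))
          (4 * (Real.sqrt k * lam)))).toReal * Real.exp (-(k:ℝ))) * (Real.exp 1) ^ k := by ring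
      _ ≤ _ := mul_le_mul_of_nonneg_right h1 (by positivity)
  refine h7.trans ?_
  rw [← mul_pow]
  apply pow_le_pow_left₀ (by positivity)
  have hpi : Real.sqrt Real.pi ≤ 1.78 := by
    rw [Real.sqrt_le_left (by norm_num)]
    have := Real.pi_lt_d2
    norm_num
    linarith
  have he := Real.exp_one_lt_d9
  have h8 : 4 * Real.sqrt Real.pi * Real.exp 1 ≤ 20 := by
    have : Real.sqrt Real.pi * Real.exp 1 ≤ 1.78 * 2.7182818286 :=
      mul_le_mul hpi he.le (Real.exp_pos 1).le (by norm_num)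
    nlinarith
  nlinarith

theorem det_le (B : Matrix (Fin k) (Fin k) ℝ) (lam : ℝ) (hlam : 0 < lam) (hk : 0 < k)
    (H : Hyp B lam) : |B.det| ≤ (2880 * lam) ^ k := by
  classical
  obtain ⟨Z, hZ1, hZ2⟩ := cover B lam hlam hk H k 0 Finset.univ (by simp)
  let L : EuclideanSpace ℝ (Fin k) →ₗ[ℝ] EuclideanSpace ℝ (Fin k) := Matrix.toEuclideanLin B
  have hLdet : LinearMap.det L = B.det := by
    show LinearMap.det (Matrix.toEuclideanLin B) = B.det
    rw [Matrix.toEuclideanLin_eq_toLin_orthonormal, LinearMap.det_toLin]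
  have hLv : ∀ x : EuclideanSpace ℝ (Fin k), L x = bb B (fun j => x j) := by
    intro x
    ext i
    simp [L, bb, Matrix.toLpLin_apply, Matrix.mulVec, dotProduct]
  let C : Set (EuclideanSpace ℝ (Fin k)) := {x | ∀ j, |x j| ≤ 1}
  have hCeq : C = (WithLp.ofLp : EuclideanSpace ℝ (Fin k) → (Fin k → ℝ)) ⁻¹'
      (Set.pi Set.univ (fun _ => Set.Icc (-1:ℝ) 1)) := by
    ext x
    simp only [C, Set.mem_ofPred_eq, Set.mem_preimage, Set.mem_pi, Set.mem_univ, true_implies,
      Set.mem_Icc, abs_le]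
  have hCvol : volume C = ENNReal.ofReal (2 ^ k) := by
    rw [hCeq, (PiLp.volume_preserving_ofLp (Fin k)).measure_preimage
      (MeasurableSet.univ_pi fun _ => measurableSet_Icc).nullMeasurableSet, volume_pi_pi]
    simp only [Real.volume_Icc, Finset.prod_const, Finset.card_univ, Fintype.card_fin]
    rw [← ENNReal.ofReal_pow (by norm_num)]
    norm_num
  have himg := Measure.addHaar_image_linearMap (volume : Measure (EuclideanSpace ℝ (Fin k))) L C
  rw [hLdet, hCvol] at himg
  have hsub : L '' C ⊆ ⋃ z ∈ Z, Metric.closedBall z (4 * (Real.sqrt k * lam)) := by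
    rintro _ ⟨x, hx, rfl⟩
    obtain ⟨z, hz, hz2⟩ := hZ2 (fun j => x j) hx (fun j hj => absurd (Finset.mem_univ j) hj)
    rw [Set.mem_iUnion₂]
    refine ⟨z, hz, ?_⟩
    rw [Metric.mem_closedBall, dist_eq_norm, hLv]
    refine hz2.trans (le_of_eq ?_)
    rw [pow_zero, mul_one]
    ring
  have hle : volume (L '' C) ≤ ∑ z ∈ Z, ENNReal.ofReal ((20 * lam) ^ k) := by
    refine (measure_mono hsub).trans ((measure_biUnion_finset_le _ _).trans ?_)
    refine Finset.sum_le_sum fun z _ => ?_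
    rw [← ENNReal.ofReal_toReal (a := volume (Metric.closedBall z (4 * (Real.sqrt k * lam))))
      measure_closedBall_lt_top.ne]
    exact ENNReal.ofReal_le_ofReal (ball_vol lam hlam hk z)
  rw [himg, Finset.sum_const, nsmul_eq_mul, ← ENNReal.ofReal_mul (abs_nonneg _),
    ← ENNReal.ofReal_natCast, ← ENNReal.ofReal_mul (Nat.cast_nonneg _),
    ENNReal.ofReal_le_ofReal_iff (by positivity)] at hle
  have h1 : |B.det| * 2 ^ k ≤ (2 ^ k * 144 ^ k) * (20 * lam) ^ k := by
    refine hle.trans (mul_le_mul_of_nonneg_right (hZ1.trans (le_of_eq ?_)) (by positivity))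
    rw [pow_zero, mul_one, pow_mul]
    norm_num
  have h2 : (2 ^ k * 144 ^ k) * (20 * lam) ^ k = (2880 * lam) ^ k * 2 ^ k := by
    rw [mul_assoc, mul_comm ((2:ℝ)^k), ← mul_pow]
    congr 2
    ring
  rw [h2] at h1
  exact le_of_mul_le_mul_right h1 (by positivity)

end Volume

theorem det_submatrix {m n : ℕ} (A : Matrix (Fin m) (Fin n) ℝ) (lam : ℝ) (hlam : 0 < lam)
    (H : ∀ S : Finset (Fin n), Feasible A S lam) (k : ℕ) (hk : 1 ≤ k) (f : Fin k ↪o Fin m)
    (g : Fin k ↪o Fin n) : |(A.submatrix f g).det| ≤ (2880 * lam) ^ k := by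
  classical
  apply det_le (A.submatrix f g) lam hlam hk
  intro S
  obtain ⟨d, v, h1, h2, _, h4⟩ := H (S.map g.toEmbedding)
  refine ⟨d, fun r j => v (g j) r, ?_, ?_⟩
  · intro i
    have h5 := h1 (f i)
    rw [Finset.sum_map, EuclideanSpace.real_norm_sq_eq] at h5
    refine le_trans (le_of_eq ?_) h5
    refine Finset.sum_congr rfl fun r _ => ?_
    congr 1
    rw [WithLp.ofLp_sum, Finset.sum_apply]
    simp
  · rw [Finset.card_map] at h2
    refine h2.trans (le_of_eq ?_)
    rw [← Finset.sum_subset (Finset.subset_univ (S.map g.toEmbedding)), Finset.sum_map,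
      Finset.sum_comm]
    · refine Finset.sum_congr rfl fun j _ => ?_
      rw [EuclideanSpace.real_norm_sq_eq]
      simp
    · intro j _ hj
      rw [h4 j hj]
      simp

theorem feasible_mono {m n : ℕ} (A : Matrix (Fin m) (Fin n) ℝ) (S : Finset (Fin n)) (a b : ℝ)
    (ha : 0 ≤ a) (hab : a ≤ b) (h : Feasible A S a) : Feasible A S b := by
  obtain ⟨d, v, h1, h2, h3, h4⟩ := h
  exact ⟨d, v, fun i => (h1 i).trans (pow_le_pow_left₀ ha hab 2), h2, h3, h4⟩

theorem feasible_exists {m n : ℕ} (A : Matrix (Fin m) (Fin n) ℝ) :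
    ∃ lam : ℝ, 0 ≤ lam ∧ ∀ S : Finset (Fin n), Feasible A S lam := by
  classical
  refine ⟨Real.sqrt (∑ i, ∑ j, (A i j) ^ 2), Real.sqrt_nonneg _, fun S => ?_⟩
  refine ⟨n, fun j => if j ∈ S then EuclideanSpace.single j 1 else 0, ?_, ?_, ?_, ?_⟩
  · intro i
    have hsq : Real.sqrt (∑ i, ∑ j, (A i j) ^ 2) ^ 2 = ∑ i, ∑ j, (A i j) ^ 2 :=
      Real.sq_sqrt (Finset.sum_nonneg fun _ _ => Finset.sum_nonneg fun _ _ => sq_nonneg _)
    have e : (∑ j ∈ S, A i j • (if j ∈ S then EuclideanSpace.single j (1:ℝ) else 0) :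
        EuclideanSpace ℝ (Fin n)) = WithLp.toLp 2 (fun j => if j ∈ S then A i j else 0) := by
      ext r
      rw [WithLp.ofLp_sum, Finset.sum_apply]
      simp only [WithLp.ofLp_smul, Pi.smul_apply, smul_eq_mul]
      rw [Finset.sum_congr rfl (g := fun j => if j = r then A i r else 0)]
      · simp
      · intro j hj
        simp only [hj, if_true]
        by_cases h : j = r
        · subst h; simp
        · simp [h, Ne.symm h]
    have hnorm : ‖(∑ j ∈ S, A i j • (if j ∈ S then EuclideanSpace.single j (1:ℝ) else 0) :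
        EuclideanSpace ℝ (Fin n))‖ ^ 2 = ∑ j, (if j ∈ S then A i j else 0) ^ 2 := by
      rw [e, EuclideanSpace.real_norm_sq_eq]
    refine (le_of_eq hnorm).trans (le_trans ?_ (le_of_eq hsq.symm))
    calc ∑ j, (if j ∈ S then A i j else 0) ^ 2 ≤ ∑ j, (A i j) ^ 2 := by
          refine Finset.sum_le_sum fun j _ => ?_
          split_ifs
          · exact le_rfl
          · rw [zero_pow (by norm_num)]; exact sq_nonneg _
      _ ≤ ∑ i, ∑ j, (A i j) ^ 2 :=
          Finset.single_le_sum (f := fun i => ∑ j, (A i j) ^ 2)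
            (fun i _ => Finset.sum_nonneg fun _ _ => sq_nonneg _) (Finset.mem_univ i)
  · have e : ∀ j, ‖(if j ∈ S then EuclideanSpace.single j (1:ℝ) else 0 : EuclideanSpace ℝ (Fin n))‖ ^ 2
        = if j ∈ S then 1 else 0 := by
      intro j
      split_ifs <;> simp
    rw [Finset.sum_congr rfl (fun j _ => e j)]
    simp only [Finset.sum_ite_mem, Finset.univ_inter, Finset.sum_const, nsmul_eq_mul, mul_one]
    have : (0:ℝ) ≤ S.card := Nat.cast_nonneg _
    linarith
  · intro j hj
    simp [hj]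
  · intro j hj
    simp [hj]

/-- **The determinant lower bound is at most a constant times the hereditary partial vector
discrepancy.** -/
theorem result {m n : ℕ} (A : Matrix (Fin m) (Fin n) ℝ) : detLB A ≤ 2880 * herpvdisc A := by
  have key : ∀ lam : ℝ, 0 < lam → (∀ S : Finset (Fin n), Feasible A S lam) → detLB A ≤ 2880 * lam := by
    intro lam hlam H
    apply Real.sSup_le
    · rintro x ⟨k, hk, f, g, rfl⟩
      have h1 := det_submatrix A lam hlam H k hk f g
      have hk0 : (k:ℝ) ≠ 0 := by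
        have : 0 < k := hk
        exact_mod_cast this.ne'
      calc |(A.submatrix f g).det| ^ ((1:ℝ)/k) ≤ ((2880 * lam) ^ k) ^ ((1:ℝ)/k) :=
            Real.rpow_le_rpow (abs_nonneg _) h1 (by positivity)
        _ = 2880 * lam := by
            rw [← Real.rpow_natCast, ← Real.rpow_mul (by positivity), mul_one_div_cancel hk0,
              Real.rpow_one]
    · positivity
  have key2 : ∀ lam ∈ {lam : ℝ | 0 ≤ lam ∧ ∀ S : Finset (Fin n), Feasible A S lam},
      detLB A / 2880 ≤ lam := by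
    rintro lam ⟨h0, H⟩
    apply le_of_forall_pos_le_add
    intro η hη
    have := key (lam + η) (by linarith) (fun S => feasible_mono A S lam (lam + η) h0 (by linarith) (H S))
    rw [div_le_iff₀ (by norm_num)]
    linarith
  have h3 : detLB A / 2880 ≤ herpvdisc A := by
    apply le_csInf _ key2
    obtain ⟨lam, h⟩ := feasible_exists A
    exact ⟨lam, h⟩
  rw [div_le_iff₀ (by norm_num)] at h3
  linarith

end Pool.Agent.Results.MP_c6e1d2_co.DetBelowPartial
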